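import Pool.Agent.H51BS.Complex

/-!
# The Beilinson–Soulé conjecture for complex varieties is decided in degree `0` by
`ℚ(t₁, t₂, …)`
-/

set_option autoImplicit false

namespace Pool.Agent.Results.MP_d72c81_ag.OneRationalFunctionField

open Pool.Agent.Q26.SP.Point Pool.Agent.H51BS

/-- Let `C` be a class of smooth, separated, quasi-compact complex schemes which contains
`Spec ℂ`, such as the smooth projective varieties. The following are equivalent:

1. `CHʲ(X, 2j - k)_ℚ = 0` for all `X` in `C`, all `j` and all `k < 0`;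
2. `H⁰(ℚ(t₁, t₂, …), ℚ(n))` is finite dimensional for all `n`;
3. `H⁰(ℚ, ℚ(n)) → H⁰(ℚ(t₁, t₂, …), ℚ(n))` is bijective for all `n`;
4. `H⁰(F, ℚ(n)) → H⁰(F(t), ℚ(n))` is bijective for all `n` and all fields `F` of characteristic 0.

The law: for all `i < 0`, all `n` and `d ≥ 0`, equivalent are: `Hⁱ(E, ℚ(n)) = 0` for all fields `E`
of transcendence degree at most `d` over `ℚ`; `Hⁱ⁺¹(ℚ(t₁, …, t_{d+1}), ℚ(n+1))` is finite
dimensional; `Hⁱ⁺¹(ℚ, ℚ(n+1)) → Hⁱ⁺¹(ℚ(t₁, …, t_{d+1}), ℚ(n+1))` is bijective. -/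
theorem result (M : HigherChowLine) (C : VarietyClass) :
    [Vanishes M.toHigherChow C, FiniteDegreeZero M, RigidDegreeZero M, RigidInCharZero M].TFAE ∧
    ∀ (i n : ℤ) (d : ℕ), i < 0 →
      [VanishAt (M.H i n) ℚ d, FiniteAt (M.H (i + 1) (n + 1)) ℚ (d + 1),
        RigidAt (M.H (i + 1) (n + 1)) ℚ (d + 1)].TFAE :=
  main_complex M C

end Pool.Agent.Results.MP_d72c81_ag.OneRationalFunctionField
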