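import Pool.Agent.Q26.SP.Point

/-!
# The Beilinson–Soulé conjecture for complex varieties is decided by the point in degree `-1`
-/

set_option autoImplicit false

namespace Pool.Agent.Results.MP_d72c81_ag.PointSuffices

open Pool.Agent.Q26.SP.Point

/-- Let `P` be a class of smooth, separated, quasi-compact complex schemes which contains
`Spec ℂ`, such as the smooth projective varieties. The following are equivalent:
(a) `CHʲ(X, 2j - k)_ℚ = 0` for all `X` in `P`, all `j` and all `k < 0`;
(b) `CHʲ(Spec ℂ, 2j + 1)_ℚ = 0` for all `j`;
(c) `Hⁱ(F, ℚ(n)) = 0` for all fields `F` of characteristic zero, all `n` and all `i < 0`. -/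
theorem result (M : HigherChow) (P : VarietyClass) :
    [Vanishes M P, VanishesAtPoint M, VanishesOnFields M].TFAE := by
  have h := (main M P).1
  tfae_have 1 ↔ 2 := h.out 0 1
  tfae_have 2 ↔ 3 := h.out 1 3
  tfae_finish

end Pool.Agent.Results.MP_d72c81_ag.PointSuffices
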