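import Pool.Agent.Q26.SP.Point

/-!
# The higher Chow groups of the complex point in negative degrees: zero or of dimension continuum
-/

set_option autoImplicit false

namespace Pool.Agent.Results.MP_d72c81_ag.ZeroOrContinuum

open Pool.Agent.Q26.SP.Point

/-- Let `P` be a class of smooth, separated, quasi-compact complex schemes which contains
`Spec ℂ`, such as the smooth projective varieties.

1. For `k < 0` the space `CHʲ(Spec ℂ, 2j - k)_ℚ` is zero or has dimension at least the continuum.
2. If `X` is in `P`, `k < 0` and `CHʲ(X, 2j - k)_ℚ ≠ 0`, then there is a point of `X`, of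
   codimension `c`, such that with `m = j + c - 1 - k` the space `CHᵐ(Spec ℂ, 2m + 1)_ℚ` has
   dimension at least the continuum.
3. So `CHʲ(X, 2j - k)_ℚ = 0` for all `X` in `P`, all `j` and all `k < 0` if and only if the
   dimension of `CHʲ(Spec ℂ, 2j + 1)_ℚ` is less than the continuum for all `j`. -/
theorem result (M : HigherChow) (P : VarietyClass) :
    PointLaw M ∧ VarietyLaw M P ∧ (Vanishes M P ↔ SmallAtPoint M) :=
  ⟨(main M P).2.1, (main M P).2.2, (main M P).1.out 0 2⟩

end Pool.Agent.Results.MP_d72c81_ag.ZeroOrContinuum
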